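import Mathlib

/-!
# Restricted multi-colour partition functions whose odd density does not tend to `1/2`

We construct a strictly increasing sequence in stages. In each stage a new prime is appended, and then
the numbers `T, 2 T, 4 T, …, 2 ^ t T`, where `1 - x ^ T` is a multiple modulo `2` of the product of the
factors `1 - x ^ a` of the earlier terms `a`. At the end of the stage the odd density is at most `2 ^ (-t)`.
-/

namespace Pool.Agent.Results.MP_cb5b52_nt.IncreasingCounterexample

open Finset Filter Topology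

/-- `p_A(n, k)`: the coefficient of `x ^ n` in `∏_{i=1}^k 1 / (1 - x ^ {a_i})` (the sequence is indexed from
`0`, so the factors are those of `a 0, …, a (k-1)`). -/
noncomputable def pA (a : ℕ → ℕ) (k n : ℕ) : ℤ :=
  PowerSeries.coeff n (∏ i ∈ Finset.range k,
    PowerSeries.invOfUnit (1 - (PowerSeries.X : PowerSeries ℤ) ^ a i) 1)

open Classical in
/-- `#{n ≤ N : p_A(n, k) odd} / N`. The odd density `δ_A(k)` is its limit as `N → ∞`. -/
noncomputable def oddRatio (a : ℕ → ℕ) (k N : ℕ) : ℝ :=
  (((Finset.range (N + 1)).filter fun n => Odd (pA a k n)).card : ℝ) / N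

/-! ### Power series modulo two -/

/-- the geometric series `∑_j x ^ (m j)` -/
noncomputable def geo (m : ℕ) : PowerSeries (ZMod 2) := PowerSeries.mk fun n => if m ∣ n then 1 else 0

theorem one_sub_mul_geo {m : ℕ} (hm : 0 < m) :
    (1 - PowerSeries.X ^ m) * geo m = 1 := by
  ext n
  rw [sub_mul, one_mul, map_sub, PowerSeries.coeff_X_pow_mul', PowerSeries.coeff_one]
  unfold geo
  simp only [PowerSeries.coeff_mk]
  by_cases h0 : n = 0
  · subst h0
    simp [hm.ne']
  · rw [if_neg h0]
    by_cases hmn : m ≤ n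
    · rw [if_pos hmn]
      have : m ∣ n - m ↔ m ∣ n := by
        constructor
        · intro h
          have h' := Nat.dvd_add h (dvd_refl m)
          rwa [Nat.sub_add_cancel hmn] at h'
        · intro h
          exact Nat.dvd_sub h (dvd_refl m)
      simp only [this, sub_self]
    · rw [if_neg hmn, if_neg, sub_zero]
      intro h
      exact hmn (Nat.le_of_dvd (Nat.pos_of_ne_zero h0) h)

theorem two_eq_zero : (2 : PowerSeries (ZMod 2)) = 0 := by
  have h : (2 : PowerSeries (ZMod 2)) = PowerSeries.C (2 : ZMod 2) := (map_ofNat _ 2).symm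
  rw [h]
  have h2 : (2 : ZMod 2) = 0 := by decide
  rw [h2, map_zero]

theorem tower (m : ℕ) (J : ℕ) :
    (1 - PowerSeries.X ^ m : PowerSeries (ZMod 2)) *
      ∏ j ∈ Finset.range J, (1 - PowerSeries.X ^ (2 ^ j * m)) = 1 - PowerSeries.X ^ (2 ^ J * m) := by
  induction J with
  | zero => simp
  | succ J ih =>
    rw [Finset.prod_range_succ, ← mul_assoc, ih]
    have h1 : (PowerSeries.X : PowerSeries (ZMod 2)) ^ (2 ^ (J + 1) * m) =
        (PowerSeries.X ^ (2 ^ J * m)) ^ 2 := by
      rw [← pow_mul]
      congr 1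
      ring
    rw [h1]
    linear_combination (PowerSeries.X ^ (2 ^ J * m) * (PowerSeries.X ^ (2 ^ J * m) - 1)) * two_eq_zero

/-! ### The sequence -/

/-- a prime larger than all entries of the list -/
noncomputable def newPrime (l : List ℕ) : ℕ := (Nat.exists_infinite_primes (l.sum + 1)).choose

theorem newPrime_gt (l : List ℕ) : l.sum < newPrime l :=
  (Nat.exists_infinite_primes (l.sum + 1)).choose_spec.1

theorem newPrime_prime (l : List ℕ) : (newPrime l).Prime :=
  (Nat.exists_infinite_primes (l.sum + 1)).choose_spec.2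

/-- the list with the new prime appended -/
noncomputable def withPrime (l : List ℕ) : List ℕ := l ++ [newPrime l]

/-- a number `T` such that `1 - x ^ T` is modulo `2` a multiple of the product of the `1 - x ^ a` -/
noncomputable def bigT (l : List ℕ) : ℕ := 2 ^ (withPrime l).length * (withPrime l).prod

/-- the lists of the stages, each a prefix of the next one -/
noncomputable def lst : ℕ → List ℕ
  | 0 => [1]
  | t + 1 => withPrime (lst t) ++ (List.range (t + 1)).map fun j => 2 ^ j * bigT (lst t)

theorem lst_succ (t : ℕ) : lst (t + 1) =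
    withPrime (lst t) ++ (List.range (t + 1)).map fun j => 2 ^ j * bigT (lst t) := rfl

theorem le_sum {l : List ℕ} {a : ℕ} (h : a ∈ l) : a ≤ l.sum := List.le_sum_of_mem h

theorem le_prod {l : List ℕ} (hl : ∀ a ∈ l, 0 < a) {a : ℕ} (h : a ∈ l) : a ≤ l.prod :=
  Nat.le_of_dvd (List.prod_pos hl) (List.dvd_prod h)

theorem pairwise_pos (t : ℕ) : (lst t).Pairwise (· < ·) ∧ ∀ a ∈ lst t, 0 < a := by
  induction t with
  | zero => simp [lst]
  | succ t ih =>
    obtain ⟨h1, h2⟩ := ih
    have hp0 : 0 < newPrime (lst t) := (newPrime_prime _).pos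
    have hw1 : (withPrime (lst t)).Pairwise (· < ·) := by
      unfold withPrime
      rw [List.pairwise_append]
      refine ⟨h1, List.pairwise_singleton _ _, ?_⟩
      intro a ha b hb
      rw [List.mem_singleton] at hb
      subst hb
      exact (le_sum ha).trans_lt (newPrime_gt _)
    have hw2 : ∀ a ∈ withPrime (lst t), 0 < a := by
      intro a ha
      unfold withPrime at ha
      rw [List.mem_append, List.mem_singleton] at ha
      rcases ha with ha | rfl
      · exact h2 a ha
      · exact hp0
    have hprod : 0 < (withPrime (lst t)).prod := List.prod_pos hw2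
    have hT : 0 < bigT (lst t) := by unfold bigT; positivity
    have hTgt : ∀ a ∈ withPrime (lst t), a < bigT (lst t) := by
      intro a ha
      have h3 := le_prod hw2 ha
      have h4 : 1 ≤ (withPrime (lst t)).length := by
        unfold withPrime
        simp
      have h5 : 2 ^ 1 ≤ 2 ^ (withPrime (lst t)).length := Nat.pow_le_pow_right (by norm_num) h4
      unfold bigT
      nlinarith
    constructor
    · rw [lst_succ, List.pairwise_append]
      refine ⟨hw1, ?_, ?_⟩
      · rw [List.pairwise_map]
        refine List.Pairwise.imp ?_ (List.pairwise_lt_range (n := t + 1))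
        intro i j hij
        exact Nat.mul_lt_mul_of_pos_right (Nat.pow_lt_pow_right (by norm_num) hij) hT
      · intro a ha b hb
        rw [List.mem_map] at hb
        obtain ⟨j, _, rfl⟩ := hb
        have h3 := hTgt a ha
        have h4 : 1 ≤ 2 ^ j := Nat.one_le_pow _ _ (by norm_num)
        nlinarith
    · intro a ha
      rw [lst_succ, List.mem_append, List.mem_map] at ha
      rcases ha with ha | ⟨j, _, rfl⟩
      · exact hw2 a ha
      · positivity

theorem length_lst (t : ℕ) : t < (lst t).length := by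
  induction t with
  | zero => simp [lst]
  | succ t ih =>
    rw [lst_succ, List.length_append, List.length_map, List.length_range]
    unfold withPrime
    rw [List.length_append]
    simp only [List.length_singleton]
    omega

theorem prefix_lst {t t' : ℕ} (h : t ≤ t') : lst t <+: lst t' := by
  obtain ⟨d, rfl⟩ := Nat.exists_eq_add_of_le h
  clear h
  induction d with
  | zero => exact List.prefix_rfl
  | succ d ih =>
    have h1 : lst (t + (d + 1)) = lst (t + d) ++ ([newPrime (lst (t + d))] ++
        (List.range (t + d + 1)).map fun j => 2 ^ j * bigT (lst (t + d))) := by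
      rw [← List.append_assoc]
      rfl
    rw [h1]
    exact ih.trans (List.prefix_append _ _)

/-- the sequence -/
noncomputable def seq (n : ℕ) : ℕ := (lst (n + 1)).getD n 0

theorem seq_eq {t n : ℕ} (h : n < (lst t).length) : seq n = (lst t)[n] := by
  have hn : n < (lst (n + 1)).length := by
    have := length_lst (n + 1)
    omega
  unfold seq
  rw [List.getD_eq_getElem _ _ hn]
  rcases le_total t (n + 1) with h1 | h1
  · exact ((prefix_lst h1).getElem h).symm
  · exact (prefix_lst h1).getElem hn

theorem prod_seq {M : Type*} [CommMonoid M] (t : ℕ) (f : ℕ → M) :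
    ∏ i ∈ Finset.range (lst t).length, f (seq i) = ((lst t).map f).prod := by
  rw [Finset.prod_range, ← List.prod_ofFn]
  congr 1
  apply List.ext_getElem
  · simp
  · intro i h1 h2
    rw [List.getElem_ofFn, List.getElem_map]
    congr 1
    exact seq_eq _

theorem seq_strictMono : StrictMono seq := by
  intro m n h
  have hn : n < (lst (n + 1)).length := by
    have := length_lst (n + 1)
    omega
  have hm : m < (lst (n + 1)).length := by omega
  rw [seq_eq hm, seq_eq hn]
  exact List.pairwise_iff_getElem.1 (pairwise_pos (n + 1)).1 m n hm hn h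

theorem seq_pos (n : ℕ) : 0 < seq n := by
  have hn : n < (lst (n + 1)).length := by
    have := length_lst (n + 1)
    omega
  rw [seq_eq hn]
  exact (pairwise_pos (n + 1)).2 _ (List.getElem_mem hn)

theorem seq_zero : seq 0 = 1 := by
  have h : 0 < (lst 0).length := by simp [lst]
  rw [seq_eq h]
  simp [lst]

theorem exists_seq_eq {t a : ℕ} (h : a ∈ lst t) : ∃ n, seq n = a := by
  obtain ⟨n, hn, h2⟩ := List.getElem_of_mem h
  exact ⟨n, by rw [seq_eq hn, h2]⟩

theorem newPrime_mem (t : ℕ) : newPrime (lst t) ∈ lst (t + 1) := by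
  rw [lst_succ, List.mem_append]
  left
  unfold withPrime
  simp

theorem length_le_sum (l : List ℕ) (h : ∀ a ∈ l, 0 < a) : l.length ≤ l.sum := by
  induction l with
  | nil => simp
  | cons a l ih =>
    rw [List.length_cons, List.sum_cons]
    have h1 := ih fun b hb => h b (List.mem_cons_of_mem a hb)
    have h2 := h a List.mem_cons_self
    omega

theorem newPrime_ge (t : ℕ) : t < newPrime (lst t) := by
  have h1 := newPrime_gt (lst t)
  have h2 := length_lst t
  have h3 : (lst t).length ≤ (lst t).sum := length_le_sum _ (pairwise_pos t).2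
  omega

/-! ### The density bound -/

open Polynomial in
theorem exists_poly (l : List ℕ) : ∃ P : (ZMod 2)[X],
    (l.map fun a => (1 - X ^ a : (ZMod 2)[X])).prod * P = 1 - X ^ (2 ^ l.length * l.prod) := by
  have h1 : (l.map fun a => (1 - X ^ a : (ZMod 2)[X])).prod ∣ (1 - X ^ l.prod) ^ l.length := by
    have key : ∀ m : List ℕ, (∀ a ∈ m, a ∣ l.prod) →
        (m.map fun a => (1 - X ^ a : (ZMod 2)[X])).prod ∣ (1 - X ^ l.prod) ^ m.length := by
      intro m
      induction m with
      | nil => intro _; simp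
      | cons a m ih =>
        intro hm
        rw [List.map_cons, List.prod_cons, List.length_cons, pow_succ, mul_comm]
        refine mul_dvd_mul (ih fun b hb => hm b (List.mem_cons_of_mem a hb)) ?_
        obtain ⟨c, hc⟩ := hm a List.mem_cons_self
        rw [hc, pow_mul]
        have h := sub_dvd_pow_sub_pow (1 : (ZMod 2)[X]) (X ^ a) c
        rwa [one_pow] at h
    exact key l fun a ha => List.dvd_prod ha
  have h2 : l.length ≤ 2 ^ l.length := Nat.lt_two_pow_self.le
  have h3 : (1 - X ^ l.prod : (ZMod 2)[X]) ^ (2 ^ l.length) = 1 - X ^ (2 ^ l.length * l.prod) := by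
    rw [sub_pow_char_pow, one_pow, ← pow_mul, mul_comm]
  obtain ⟨P, hP⟩ := h1.trans (pow_dvd_pow _ h2)
  exact ⟨P, by rw [← hP, h3]⟩

theorem map_pA (a : ℕ → ℕ) (ha : ∀ i, 0 < a i) (k : ℕ) :
    (PowerSeries.mk fun n => ((pA a k n : ℤ) : ZMod 2)) *
      ∏ i ∈ Finset.range k, (1 - PowerSeries.X ^ a i) = 1 := by
  have h1 : (PowerSeries.mk fun n => ((pA a k n : ℤ) : ZMod 2)) =
      PowerSeries.map (Int.castRingHom (ZMod 2)) (∏ i ∈ Finset.range k,
        PowerSeries.invOfUnit (1 - (PowerSeries.X : PowerSeries ℤ) ^ a i) 1) := by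
    ext n
    rw [PowerSeries.coeff_mk, PowerSeries.coeff_map]
    rfl
  have h2 : (∏ i ∈ Finset.range k, (1 - PowerSeries.X ^ a i : PowerSeries (ZMod 2))) =
      PowerSeries.map (Int.castRingHom (ZMod 2)) (∏ i ∈ Finset.range k,
        (1 - (PowerSeries.X : PowerSeries ℤ) ^ a i)) := by
    rw [map_prod]
    refine Finset.prod_congr rfl fun i _ => ?_
    rw [map_sub, map_one, map_pow, PowerSeries.map_X]
  rw [h1, h2, ← map_mul, ← Finset.prod_mul_distrib]
  have h3 : ∏ i ∈ Finset.range k,
      (PowerSeries.invOfUnit (1 - (PowerSeries.X : PowerSeries ℤ) ^ a i) 1 *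
        (1 - (PowerSeries.X : PowerSeries ℤ) ^ a i)) = 1 := by
    apply Finset.prod_eq_one
    intro i _
    rw [mul_comm]
    apply PowerSeries.mul_invOfUnit
    simp [(ha i).ne']
  rw [h3, map_one]

theorem bigT_pos (t : ℕ) : 0 < bigT (lst t) := by
  have hw2 : ∀ a ∈ withPrime (lst t), 0 < a := by
    intro a ha
    unfold withPrime at ha
    rw [List.mem_append, List.mem_singleton] at ha
    rcases ha with ha | rfl
    · exact (pairwise_pos t).2 a ha
    · exact (newPrime_prime _).pos
  have hprod : 0 < (withPrime (lst t)).prod := List.prod_pos hw2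
  unfold bigT
  positivity

theorem series_eq (t : ℕ) : ∃ P : Polynomial (ZMod 2), P.natDegree ≤ bigT (lst t) ∧
    (PowerSeries.mk fun n => ((pA seq (lst (t + 1)).length n : ℤ) : ZMod 2)) =
      (P : PowerSeries (ZMod 2)) * geo (2 ^ (t + 1) * bigT (lst t)) := by
  obtain ⟨P, hP⟩ := exists_poly (withPrime (lst t))
  have hT : 2 ^ (withPrime (lst t)).length * (withPrime (lst t)).prod = bigT (lst t) := rfl
  rw [hT] at hP
  refine ⟨P, ?_, ?_⟩
  · have hne : (1 - Polynomial.X ^ bigT (lst t) : Polynomial (ZMod 2)) ≠ 0 := by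
      intro h
      have := congrArg (fun q => Polynomial.coeff q 0) h
      simp [Polynomial.coeff_X_pow, (bigT_pos t).ne] at this
    have h1 : P ∣ (1 - Polynomial.X ^ bigT (lst t) : Polynomial (ZMod 2)) :=
      ⟨_, by rw [← hP, mul_comm]⟩
    refine (Polynomial.natDegree_le_of_dvd h1 hne).trans ?_
    refine (Polynomial.natDegree_sub_le _ _).trans ?_
    simp
  · have h1 := map_pA seq seq_pos (lst (t + 1)).length
    rw [prod_seq (t + 1) fun s => (1 - PowerSeries.X ^ s : PowerSeries (ZMod 2))] at h1
    have h2 : ((List.range (t + 1)).map ((fun s => (1 - PowerSeries.X ^ s : PowerSeries (ZMod 2))) ∘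
        fun j => 2 ^ j * bigT (lst t))).prod =
        ∏ j ∈ Finset.range (t + 1), (1 - PowerSeries.X ^ (2 ^ j * bigT (lst t))) := by
      rw [Finset.prod_range, ← List.prod_ofFn]
      congr 1
      apply List.ext_getElem
      · simp
      · intro i h1 h2
        rw [List.getElem_map, List.getElem_range, List.getElem_ofFn]
        rfl
    have h2' : ((lst (t + 1)).map fun s => (1 - PowerSeries.X ^ s : PowerSeries (ZMod 2))).prod =
        ((withPrime (lst t)).map fun s => (1 - PowerSeries.X ^ s : PowerSeries (ZMod 2))).prod *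
        ∏ j ∈ Finset.range (t + 1), (1 - PowerSeries.X ^ (2 ^ j * bigT (lst t))) := by
      rw [lst_succ, List.map_append, List.prod_append, List.map_map, h2]
    rw [h2'] at h1
    have h3 : ((withPrime (lst t)).map
        fun s => (1 - PowerSeries.X ^ s : PowerSeries (ZMod 2))).prod * (P : PowerSeries (ZMod 2)) =
        1 - PowerSeries.X ^ bigT (lst t) := by
      have h4 := congrArg (fun q : Polynomial (ZMod 2) => (q : PowerSeries (ZMod 2))) hP
      simp only [Polynomial.coe_mul, Polynomial.coe_sub, Polynomial.coe_one, Polynomial.coe_pow,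
        Polynomial.coe_X] at h4
      rw [← h4]
      congr 1
      have h5 := map_list_prod (Polynomial.coeToPowerSeries.ringHom (R := ZMod 2))
        ((withPrime (lst t)).map fun a => (1 - Polynomial.X ^ a : Polynomial (ZMod 2)))
      rw [Polynomial.coeToPowerSeries.ringHom_apply] at h5
      rw [h5, List.map_map]
      congr 1
      apply List.map_congr_left
      intro a _
      simp
    have h6 := tower (bigT (lst t)) (t + 1)
    have h7 : 0 < 2 ^ (t + 1) * bigT (lst t) := by
      have := bigT_pos t
      positivity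
    have h8 := one_sub_mul_geo h7
    set F := (PowerSeries.mk fun n => ((pA seq (lst (t + 1)).length n : ℤ) : ZMod 2)) with hF
    set D := ((withPrime (lst t)).map
        fun s => (1 - PowerSeries.X ^ s : PowerSeries (ZMod 2))).prod with hD
    set E := ∏ j ∈ Finset.range (t + 1),
      (1 - PowerSeries.X ^ (2 ^ j * bigT (lst t)) : PowerSeries (ZMod 2)) with hE
    calc F = F * ((1 - PowerSeries.X ^ (2 ^ (t + 1) * bigT (lst t))) *
          geo (2 ^ (t + 1) * bigT (lst t))) := by rw [h8, mul_one]
      _ = F * (((1 - PowerSeries.X ^ bigT (lst t)) * E) * geo (2 ^ (t + 1) * bigT (lst t))) := by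
          rw [h6]
      _ = F * (((D * (P : PowerSeries (ZMod 2))) * E) * geo (2 ^ (t + 1) * bigT (lst t))) := by
          rw [h3]
      _ = (F * (D * E)) * ((P : PowerSeries (ZMod 2)) * geo (2 ^ (t + 1) * bigT (lst t))) := by ring
      _ = _ := by rw [h1, one_mul]

theorem coeff_ne_zero (t n : ℕ) (h : Odd (pA seq (lst (t + 1)).length n)) :
    ∃ u ∈ Finset.range (bigT (lst t) + 1), u ≤ n ∧ 2 ^ (t + 1) * bigT (lst t) ∣ n - u := by
  obtain ⟨P, hdeg, hP⟩ := series_eq t
  by_contra hcon
  push Not at hcon
  have h1 : ((pA seq (lst (t + 1)).length n : ℤ) : ZMod 2) = 0 := by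
    have h2 := congrArg (PowerSeries.coeff n) hP
    rw [PowerSeries.coeff_mk, PowerSeries.coeff_mul] at h2
    rw [h2]
    apply Finset.sum_eq_zero
    intro p hp
    rw [Finset.HasAntidiagonal.mem_antidiagonal] at hp
    by_cases h3 : p.1 ≤ bigT (lst t)
    · have h4 := hcon p.1 (Finset.mem_range.2 (by omega)) (by omega)
      have h5 : n - p.1 = p.2 := by omega
      rw [h5] at h4
      unfold geo
      rw [PowerSeries.coeff_mk, if_neg h4, mul_zero]
    · rw [Polynomial.coeff_coe, Polynomial.coeff_eq_zero_of_natDegree_lt (by omega), zero_mul]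
  have h5 : ((pA seq (lst (t + 1)).length n : ℤ) : ZMod 2) = 1 := ZMod.intCast_eq_one_iff_odd.2 h
  rw [h1] at h5
  exact absurd h5 (by decide)

theorem card_bound (t N : ℕ) :
    (((Finset.range (N + 1)).filter fun n => Odd (pA seq (lst (t + 1)).length n)).card) ≤
      (bigT (lst t) + 1) * (N / (2 ^ (t + 1) * bigT (lst t)) + 1) := by
  classical
  set q := 2 ^ (t + 1) * bigT (lst t) with hq
  have hq0 : 0 < q := by
    have := bigT_pos t
    positivity
  have h1 : ((Finset.range (N + 1)).filter fun n => Odd (pA seq (lst (t + 1)).length n)) ⊆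
      (Finset.range (bigT (lst t) + 1)).biUnion fun u =>
        (Finset.range (N / q + 1)).image fun m => u + q * m := by
    intro n hn
    rw [Finset.mem_filter, Finset.mem_range] at hn
    obtain ⟨u, hu, hle, m, hm⟩ := coeff_ne_zero t n hn.2
    rw [← hq] at hm
    rw [Finset.mem_biUnion]
    refine ⟨u, hu, ?_⟩
    rw [Finset.mem_image]
    refine ⟨m, ?_, by omega⟩
    rw [Finset.mem_range, Nat.lt_succ_iff, Nat.le_div_iff_mul_le hq0, mul_comm]
    omega
  refine (Finset.card_le_card h1).trans ?_
  refine Finset.card_biUnion_le.trans ?_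
  calc ∑ u ∈ Finset.range (bigT (lst t) + 1), ((Finset.range (N / q + 1)).image
          fun m => u + q * m).card
      ≤ ∑ u ∈ Finset.range (bigT (lst t) + 1), (N / q + 1) := by
        refine Finset.sum_le_sum fun u _ => ?_
        refine Finset.card_image_le.trans ?_
        rw [Finset.card_range]
    _ = (bigT (lst t) + 1) * (N / q + 1) := by
        rw [Finset.sum_const, Finset.card_range, smul_eq_mul]

theorem ratio_bound (t N : ℕ) (hN : 0 < N) :
    oddRatio seq (lst (t + 1)).length N ≤ 1 / 2 ^ t + ((bigT (lst t) : ℝ) + 1) / N := by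
  classical
  unfold oddRatio
  have hN' : (0 : ℝ) < N := by exact_mod_cast hN
  rw [div_le_iff₀ hN']
  have h1 : ((((Finset.range (N + 1)).filter
      fun n => Odd (pA seq (lst (t + 1)).length n)).card : ℕ) : ℝ) ≤
      (((bigT (lst t) + 1) * (N / (2 ^ (t + 1) * bigT (lst t)) + 1) : ℕ) : ℝ) := by
    have := card_bound t N
    exact_mod_cast this
  have hT : (1 : ℝ) ≤ (bigT (lst t) : ℝ) := by exact_mod_cast bigT_pos t
  have h2 : ((N / (2 ^ (t + 1) * bigT (lst t)) : ℕ) : ℝ) ≤
      (N : ℝ) / (2 ^ (t + 1) * (bigT (lst t) : ℝ)) := by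
    have := @Nat.cast_div_le ℝ _ _ _ N (2 ^ (t + 1) * bigT (lst t))
    simpa using this
  refine le_trans (le_trans (le_of_eq (by congr)) h1) ?_
  push_cast
  have h3 : ((bigT (lst t) : ℝ) + 1) * ((N : ℝ) / (2 ^ (t + 1) * (bigT (lst t) : ℝ))) ≤
      1 / 2 ^ t * N := by
    rw [mul_div_assoc', div_le_iff₀ (by positivity)]
    have h4 : 1 / (2 : ℝ) ^ t * N * (2 ^ (t + 1) * (bigT (lst t) : ℝ)) =
        2 * (bigT (lst t) : ℝ) * N := by
      rw [pow_succ]
      field_simp
    rw [h4]
    nlinarith
  have h5 : ((bigT (lst t) : ℝ) + 1) / N * N = (bigT (lst t) : ℝ) + 1 := by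
    field_simp
  nlinarith

/-- There is a strictly increasing sequence `A = (a_i)` of positive integers with greatest common divisor
`1` and infinitely many prime divisors such that for every `ε > 0` there are arbitrarily large `k` for which
at most `ε N` of the numbers `n ≤ N` have `p_A(n, k)` odd, for all large `N`. In particular the densities
`δ_A(k)` do not tend to `1/2`. -/
theorem result : ∃ a : ℕ → ℕ, StrictMono a ∧ (∀ i, 0 < a i) ∧
    (∀ d : ℕ, (∀ i, d ∣ a i) → d = 1) ∧ {p : ℕ | p.Prime ∧ ∃ i, p ∣ a i}.Infinite ∧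
    (∀ ε : ℝ, 0 < ε → ∀ K : ℕ, ∃ k : ℕ, K ≤ k ∧ ∀ᶠ N in atTop, oddRatio a k N < ε) ∧
    ∀ δ : ℕ → ℝ, (∀ k, Tendsto (oddRatio a k) atTop (𝓝 (δ k))) →
      ¬ Tendsto δ atTop (𝓝 (1 / 2)) := by
  have key : ∀ ε : ℝ, 0 < ε → ∀ K : ℕ, ∃ k : ℕ, K ≤ k ∧ ∀ᶠ N in atTop, oddRatio seq k N < ε := by
    intro ε hε K
    obtain ⟨t, ht, htK⟩ : ∃ t : ℕ, 1 / (2 : ℝ) ^ t < ε / 2 ∧ K < t := by
      have h1 : Tendsto (fun t : ℕ => 1 / (2 : ℝ) ^ t) atTop (𝓝 0) := by
        simpa [Function.comp_def] using tendsto_inv_atTop_zero.comp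
          (tendsto_pow_atTop_atTop_of_one_lt (by norm_num : (1 : ℝ) < 2))
      have h2 := (h1.eventually (gt_mem_nhds (half_pos hε))).and (eventually_gt_atTop K)
      exact h2.exists
    refine ⟨(lst (t + 1)).length, by have := length_lst (t + 1); omega, ?_⟩
    have h3 : Tendsto (fun N : ℕ => ((bigT (lst t) : ℝ) + 1) / N) atTop (𝓝 0) :=
      tendsto_const_div_atTop_nhds_zero_nat _
    filter_upwards [h3.eventually (gt_mem_nhds (half_pos hε)), eventually_gt_atTop 0] with N hN hN0
    have := ratio_bound t N hN0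
    linarith
  refine ⟨seq, seq_strictMono, seq_pos, ?_, ?_, key, ?_⟩
  · intro d hd
    have := hd 0
    rw [seq_zero] at this
    exact Nat.dvd_one.1 this
  · rw [Set.infinite_iff_exists_gt]
    intro n
    obtain ⟨i, hi⟩ := exists_seq_eq (newPrime_mem n)
    exact ⟨newPrime (lst n), ⟨newPrime_prime _, i, by rw [hi]⟩, newPrime_ge n⟩
  · intro δ hδ hlim
    have h1 : ∀ᶠ k in atTop, 1 / 4 < δ k := hlim.eventually (lt_mem_nhds (by norm_num))
    obtain ⟨K, hK⟩ := eventually_atTop.1 h1
    obtain ⟨k, hk, hev⟩ := key (1 / 4) (by norm_num) K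
    have h2 : δ k ≤ 1 / 4 := le_of_tendsto (hδ k) (hev.mono fun N hN => hN.le)
    exact absurd (hK k hk) (not_lt.2 h2)

end Pool.Agent.Results.MP_cb5b52_nt.IncreasingCounterexample
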